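import Mathlib
import Pool.Agent.K4H49.AC.A12

/-! Large central values in almost all cosets of every subgroup with at least `c₀ q ^ ε` elements, for all large primes
`q`: the full range of subgroups of the conjecture. -/

set_option autoImplicit false

namespace Pool.Agent.Results.MP_3e6494_nt.AlmostAllCosets
open Filter Topology

open Pool.Agent.R311.RES Pool.Agent.K4H49.AC in
/-- **Large central values in almost all cosets of all subgroups of polynomial size.** For all `ε, c₀ > 0` there are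
`c > 0` and `q₀` such that for ALL primes `q ≥ q₀`, ALL subgroups `H` with at least `c₀ q ^ ε` elements of the group `X` of
the Dirichlet characters modulo `q` and all `D` between `log q` and `exp (c (log q) ^ (1/3))`: all but at most `[X : H] / D`
of the cosets of `H` contain a character `χ` with `|L(χ, 1/2)| ≥ exp (c √(log q / log D))`. -/
theorem result : ∀ ε : ℝ, 0 < ε → ∀ c₀ : ℝ, 0 < c₀ → ∃ c : ℝ, 0 < c ∧ ∃ q₀ : ℕ,
    ∀ (q : ℕ) [NeZero q], q₀ ≤ q → q.Prime →
      ∀ H : Subgroup (DirichletCharacter ℂ q), c₀ * (q : ℝ) ^ ε ≤ (Nat.card H : ℝ) →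
        ∀ D : ℝ, Real.log q ≤ D → Real.log D ≤ c * Real.log q ^ (1 / 3 : ℝ) →
          ∃ Bad : Set (DirichletCharacter ℂ q ⧸ H), D * (Bad.ncard : ℝ) ≤ (H.index : ℝ) ∧
            ∀ χ₀ : DirichletCharacter ℂ q, (QuotientGroup.mk χ₀ : DirichletCharacter ℂ q ⧸ H) ∉ Bad →
              ∃ ψ ∈ H, Real.exp (c * Real.sqrt (Real.log q / Real.log D)) ≤
                ‖DirichletCharacter.LFunction (χ₀ * ψ) (1 / 2)‖ := by
  classical
  intro ε hε c₀ hc₀
  set κ : ℝ := min ε 1 / 2 with hκ
  have hm : 0 < min ε 1 := lt_min hε one_pos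
  have hκ0 : 0 < κ := by positivity
  have hκ1 : κ ≤ 1 := by
    have := min_le_right ε 1
    rw [hκ]; linarith
  have hκε : 0 < ε - κ := by
    have := min_le_left ε 1
    rw [hκ]; linarith
  obtain ⟨c, hc0, -, q₁, hcore⟩ := core κ hκ0 hκ1
  have hev : ∀ᶠ q : ℕ in atTop, 1 / c₀ ≤ (q : ℝ) ^ (ε - κ) :=
    ((tendsto_rpow_atTop hκε).comp tendsto_natCast_atTop_atTop).eventually_ge_atTop _
  obtain ⟨q₂, hq₂⟩ := eventually_atTop.1 hev
  refine ⟨c, hc0, max 3 (max q₁ q₂), ?_⟩
  intro q _ hqq hqp H hH D hD hDc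
  have hfact : Fact q.Prime := ⟨hqp⟩
  have hq3 : 3 ≤ q := (le_max_left _ _).trans hqq
  have hq0 : (0 : ℝ) < q := by exact_mod_cast hqp.pos
  have hq1 : (1 : ℝ) < q := by exact_mod_cast hqp.one_lt
  have hbig := hq₂ q ((le_max_right _ _).trans ((le_max_right _ _).trans hqq))
  have hcard := card_mul H
  have hH0 : (0 : ℝ) < Fintype.card H := by
    have : 0 < Fintype.card H := Fintype.card_pos
    exact_mod_cast this
  rw [Nat.card_eq_fintype_card] at hH
  have hG : (Fintype.card (ann H) : ℝ) ≤ (q : ℝ) ^ (1 - κ) := by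
    have hp : 0 < (q : ℝ) ^ ε := Real.rpow_pos_of_pos hq0 _
    have h1 : c₀ * (q : ℝ) ^ ε * (Fintype.card (ann H) : ℝ) ≤ q := by
      have := mul_le_mul_of_nonneg_right hH (Nat.cast_nonneg (α := ℝ) (Fintype.card (ann H)))
      linarith
    have h2 : (q : ℝ) = (q : ℝ) ^ ε * ((q : ℝ) ^ (1 - κ) * ((q : ℝ) ^ (ε - κ))⁻¹) := by
      rw [← Real.rpow_neg hq0.le, ← Real.rpow_add hq0, ← Real.rpow_add hq0]
      rw [show ε + (1 - κ + -(ε - κ)) = (1 : ℝ) by ring, Real.rpow_one]
    have h3 : ((q : ℝ) ^ (ε - κ))⁻¹ ≤ c₀ := by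
      rw [inv_le_comm₀ (by positivity) hc₀, ← one_div]
      exact hbig
    have h4 : c₀ * (q : ℝ) ^ ε * (Fintype.card (ann H) : ℝ) ≤ c₀ * (q : ℝ) ^ ε * (q : ℝ) ^ (1 - κ) := by
      refine h1.trans ?_
      calc (q : ℝ) = (q : ℝ) ^ ε * ((q : ℝ) ^ (1 - κ) * ((q : ℝ) ^ (ε - κ))⁻¹) := h2
        _ ≤ (q : ℝ) ^ ε * ((q : ℝ) ^ (1 - κ) * c₀) := by
            apply mul_le_mul_of_nonneg_left _ hp.le
            exact mul_le_mul_of_nonneg_left h3 (by positivity)
        _ = _ := by ring
    exact le_of_mul_le_mul_left h4 (by positivity)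
  have hmain := hcore q ((le_max_left _ _).trans ((le_max_right _ _).trans hqq)) H hG D hD hDc
  set V : ℝ := Real.exp (c * Real.sqrt (Real.log q / Real.log D)) with hV
  have hlq : 0 < Real.log q := Real.log_pos hq1
  have hD0 : 0 < D := by linarith
  set Bad : Set (DirichletCharacter ℂ q ⧸ H) := {C | ∀ χ : DirichletCharacter ℂ q,
    (QuotientGroup.mk χ : DirichletCharacter ℂ q ⧸ H) = C → ‖DirichletCharacter.LFunction χ (1 / 2)‖ < V} with hBad
  refine ⟨Bad, ?_, ?_⟩
  · have hfin : Bad.Finite := Set.toFinite _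
    have hcnt : Bad.ncard = hfin.toFinset.card := Set.ncard_eq_toFinset_card Bad hfin
    have h1 : hfin.toFinset.card * Fintype.card H ≤
        (Finset.univ.filter (fun χ₀ : DirichletCharacter ℂ q => ∀ ψ ∈ H,
          ‖DirichletCharacter.LFunction (χ₀ * ψ) (1 / 2)‖ < V)).card := by
      rw [← Finset.card_univ (α := H), ← Finset.card_product]
      apply Finset.card_le_card_of_injOn (fun z : (DirichletCharacter ℂ q ⧸ H) × H => z.1.out * (z.2 : DirichletCharacter ℂ q))
      · rintro ⟨C, h⟩ hz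
        simp only [Finset.coe_product, Set.mem_prod, Finset.mem_coe, Set.Finite.mem_toFinset] at hz
        simp only [Finset.coe_filter, Finset.mem_univ, true_and, Set.mem_setOf_eq]
        intro ψ hψ
        apply hz.1
        have : (QuotientGroup.mk (C.out * (h : DirichletCharacter ℂ q) * ψ) : DirichletCharacter ℂ q ⧸ H) =
            QuotientGroup.mk C.out := by
          rw [QuotientGroup.eq]
          have : (C.out * (h : DirichletCharacter ℂ q) * ψ)⁻¹ * C.out = ((h : DirichletCharacter ℂ q) * ψ)⁻¹ := by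
            rw [mul_assoc, mul_inv_rev, mul_assoc, inv_mul_cancel, mul_one]
          rw [this]
          exact H.inv_mem (H.mul_mem h.2 hψ)
        rw [this]
        exact QuotientGroup.out_eq' C
      · rintro ⟨C, h⟩ _ ⟨C', h'⟩ _ heq
        have heq' : C.out * (h : DirichletCharacter ℂ q) = C'.out * (h' : DirichletCharacter ℂ q) := heq
        have e1 : C = C' := by
          rw [← QuotientGroup.out_eq' C, ← QuotientGroup.out_eq' C', QuotientGroup.eq]
          have : C.out⁻¹ * C'.out = (h : DirichletCharacter ℂ q) * (h' : DirichletCharacter ℂ q)⁻¹ := by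
            rw [eq_mul_inv_iff_mul_eq, mul_assoc, ← heq', inv_mul_cancel_left]
          rw [this]
          exact H.mul_mem h.2 (H.inv_mem h'.2)
        subst e1
        have e2 : (h : DirichletCharacter ℂ q) = h' := mul_left_cancel heq'
        rw [Subtype.ext e2]
    have h2 : (hfin.toFinset.card : ℝ) * (Fintype.card H : ℝ) ≤ ((q : ℝ) - 1) / D := by
      refine le_trans ?_ hmain
      exact_mod_cast h1
    have h3 : (H.index : ℝ) * (Fintype.card H : ℝ) = q - 1 := by
      rw [← card_ann_index' H, mul_comm]; exact hcard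
    rw [hcnt]
    have h4 : D * (hfin.toFinset.card : ℝ) * (Fintype.card H : ℝ) ≤ (H.index : ℝ) * (Fintype.card H : ℝ) := by
      rw [h3]
      rw [le_div_iff₀ hD0] at h2
      linarith
    exact le_of_mul_le_mul_right h4 hH0
  · intro χ₀ hχ₀
    by_contra hcon
    push Not at hcon
    apply hχ₀
    rw [hBad, Set.mem_setOf_eq]
    intro χ hχ
    rw [QuotientGroup.eq] at hχ
    have h5 := hcon (χ₀⁻¹ * χ) (by
      have := H.inv_mem hχ
      rwa [mul_inv_rev, inv_inv] at this)
    rwa [mul_inv_cancel_left] at h5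

end Pool.Agent.Results.MP_3e6494_nt.AlmostAllCosets
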