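import Mathlib
import Pool.Agent.K4H2.EC.G7

/-! The first moment of the central values over every coset of every subgroup with at least `c q ^ β`
characters, `β > 26 / 41`, for ALL large primes `q`. -/

set_option autoImplicit false

namespace Pool.Agent.Results.MP_3e6494_nt.CosetFirstMoment

open scoped Classical in
/-- **The first moment over all cosets of all subgroups of index at most `q ^ {15/41 - δ}`**, with a
power saving: only the integers `n ≤ q ^ η` in the annihilator of `H` contribute. -/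
theorem result (β c η : ℝ) (hβ : 26 / 41 < β) (hc : 0 < c) (hη : 0 < η) (hη1 : η < 1) :
    ∃ ε₁ : ℝ, 0 < ε₁ ∧ ∃ q₀ : ℕ, ∀ (q : ℕ) [NeZero q], q₀ ≤ q → q.Prime →
      ∀ (H : Subgroup (DirichletCharacter ℂ q)) (χ₀ : DirichletCharacter ℂ q),
        c * (q : ℝ) ^ β ≤ (Nat.card H : ℝ) →
        ‖(Nat.card H : ℂ)⁻¹ * ∑ᶠ ψ : H,
            DirichletCharacter.LFunction (χ₀ * (ψ : DirichletCharacter ℂ q)) (1 / 2) -
          ∑ n ∈ (Finset.Icc 1 ⌊(q : ℝ) ^ η⌋₊).filter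
            (fun n : ℕ => ∀ ψ ∈ H, ψ (n : ZMod q) = 1), χ₀ (n : ZMod q) / (Real.sqrt n : ℂ)‖ ≤
          (q : ℝ) ^ (-ε₁) := by
  obtain ⟨ε₁, hε₁, q₀, h⟩ := Pool.Agent.K4H2.EC.first_moment3 β c η hβ hc hη hη1
  refine ⟨ε₁, hε₁, q₀, fun q _ hqq hq H χ₀ hH => ?_⟩
  have : Fact q.Prime := ⟨hq⟩
  have h1 := h q hqq H χ₀ hH
  rw [finsum_eq_sum_of_fintype, Nat.card_eq_fintype_card]
  exact h1

end Pool.Agent.Results.MP_3e6494_nt.CosetFirstMoment
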