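import Mathlib
import Pool.Agent.K4H20.TC.T9
import Pool.Agent.K4H49.AC.A12

/-! Large central values in every coset of every subgroup of index at most
`exp (c log q logloglog q / loglog q)`, for all large primes `q`. -/

set_option autoImplicit false

namespace Pool.Agent.Results.MP_3e6494_nt.EveryCoset

/-- **Large central values in all cosets of subgroups of index `q ^ {c log₃ q / log₂ q}`.** -/
theorem result : ∃ c : ℝ, 0 < c ∧ ∃ q₀ : ℕ, ∀ (q : ℕ) [NeZero q], q₀ ≤ q → q.Prime →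
    ∀ (H : Subgroup (DirichletCharacter ℂ q)) (χ₀ : DirichletCharacter ℂ q),
      (H.index : ℝ) ≤ Real.exp (c * Real.log q * Real.log (Real.log (Real.log q)) /
        Real.log (Real.log q)) →
      ∃ ψ ∈ H, Real.exp (c * Real.sqrt (Real.log q / Real.log (Real.log q))) ≤
        ‖DirichletCharacter.LFunction (χ₀ * ψ) (1 / 2)‖ := by
  obtain ⟨c, hc, q₀, h⟩ := Pool.Agent.K4H20.TC.core
  refine ⟨c, hc, q₀, fun q _ hqq hq H χ₀ hH => ?_⟩
  have : Fact q.Prime := ⟨hq⟩
  obtain ⟨ψ, hψ, h1⟩ := h q hqq H χ₀ (by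
    rw [Pool.Agent.K4H49.AC.card_ann_index' H]; exact hH)
  exact ⟨ψ, hψ, h1⟩

end Pool.Agent.Results.MP_3e6494_nt.EveryCoset
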