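import Mathlib
import Pool.Agent.K4H2.EC.G7

/-! Every coset of every subgroup with at least `c q ^ β` characters, `β > 26 / 41`, contains at least
`q ^ (2 β - 1 - ε)` characters with `|L(χ, 1/2)| ≥ exp (-(log q) ^ τ)`, for every `τ > 1 / (2 β)` and
for ALL large primes `q`. -/

set_option autoImplicit false

namespace Pool.Agent.Results.MP_3e6494_nt.EveryCosetNonvanishing

/-- **Many central values that are not small in all cosets of all subgroups of index at most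
`q ^ {15/41 - δ}`.** -/
theorem result (β c ε τ : ℝ) (hβ : 26 / 41 < β) (hβ1 : β ≤ 1) (hc : 0 < c) (hε : 0 < ε) (hτ : 1 / (2 * β) < τ) :
    ∃ q₀ : ℕ, ∀ (q : ℕ) [NeZero q], q₀ ≤ q → q.Prime →
      ∀ (H : Subgroup (DirichletCharacter ℂ q)) (χ₀ : DirichletCharacter ℂ q),
        c * (q : ℝ) ^ β ≤ (Nat.card H : ℝ) →
        (q : ℝ) ^ (2 * β - 1 - ε) ≤
          ({ψ : DirichletCharacter ℂ q | ψ ∈ H ∧ Real.exp (-(Real.log q ^ τ)) ≤
            ‖DirichletCharacter.LFunction (χ₀ * ψ) (1 / 2)‖}.ncard : ℝ) := by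
  classical
  obtain ⟨q₀, h⟩ := Pool.Agent.K4H2.EC.nonvanishing3 β c ε τ hβ hβ1 hc hε hτ
  refine ⟨q₀, fun q _ hqq hq H χ₀ hH => ?_⟩
  have : Fact q.Prime := ⟨hq⟩
  refine (h q hqq H χ₀ hH).trans ?_
  have h1 : {ψ : DirichletCharacter ℂ q | ψ ∈ H ∧ Real.exp (-(Real.log q ^ τ)) ≤
      ‖DirichletCharacter.LFunction (χ₀ * ψ) (1 / 2)‖} =
      (((Pool.Agent.K4H2.EC.SS H χ₀ (Real.exp (-(Real.log q ^ τ)))).image Subtype.val :
        Finset (DirichletCharacter ℂ q)) : Set (DirichletCharacter ℂ q)) := by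
    ext ψ
    simp [Pool.Agent.K4H2.EC.SS, and_comm]
  rw [h1, Set.ncard_coe_finset, Finset.card_image_of_injective _ Subtype.val_injective]

end Pool.Agent.Results.MP_3e6494_nt.EveryCosetNonvanishing
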